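import Pool.Agent.Lib.MP_77266e_gtP.Final
import Pool.Agent.Lib.MP_77266e_gtP.Comp

/-!
# c.o. spaces with few isolated points

A compact Hausdorff space is c.o. if each closed subspace is homeomorphic to a clopen subspace.
Under `2 ^ 𝔭 > 2 ^ ℵ₀` (for example under CH, under Martin's axiom, or if `2 ^ ℵ₀ < 2 ^ ℵ₁`) every
c.o. space with fewer than `𝔭` isolated points is scattered (this is the case `κ = 𝔭` below).
-/

namespace Pool.Agent.Results.MP_77266e_gt.FewIsolatedPoints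

open Set Topology Cardinal

universe u

/-- The cardinality of `ι` is less than the pseudointersection number: every family of subsets of
`ℕ` indexed by `ι`, all of whose finite intersections are infinite, has an infinite
pseudointersection. -/
def PI (ι : Type u) : Prop :=
  ∀ A : ι → Set ℕ, (∀ t : Finset ι, (⋂ i ∈ t, A i).Infinite) →
    ∃ B : Set ℕ, B.Infinite ∧ ∀ i, (B \ A i).Finite

/-- `𝒱` is a base of neighbourhoods of the set `L`. -/
def Base {X : Type u} [TopologicalSpace X] (L : Set X) (𝒱 : Set (Set X)) : Prop :=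
  (∀ V ∈ 𝒱, V ∈ 𝓝ˢ L) ∧ ∀ U ∈ 𝓝ˢ L, ∃ V ∈ 𝒱, V ⊆ U

/-- Let `κ ≤ 𝔠` be an uncountable cardinal such that `κ = 𝔠`, or `κ` is regular and
`2 ^ μ < 2 ^ κ` for all `μ < κ`, and let `X` be a c.o. space with fewer than `κ` isolated points.
Then `X` is scattered, or some component of `X` has a base of neighbourhoods with fewer than `κ`
members, but none whose cardinality is less than the pseudointersection number. (If `κ` is at most
the pseudointersection number, the second case is impossible, so `X` is scattered.) -/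
theorem result (κ : Cardinal.{u}) (h1 : ℵ₀ < κ) (h2 : κ ≤ 𝔠)
    (h3 : κ = 𝔠 ∨ κ.IsRegular ∧ ∀ μ < κ, (2 : Cardinal.{u}) ^ μ < 2 ^ κ)
    (X : Type u) [TopologicalSpace X] [CompactSpace X] [T2Space X]
    (hco : ∀ F : Set X, IsClosed F → ∃ U : Set X, IsClopen U ∧ Nonempty (F ≃ₜ U))
    (hiso : #{x : X | IsOpen ({x} : Set X)} < κ) :
    (∀ S : Set X, S.Nonempty → ∃ x ∈ S, ∃ V : Set X, IsOpen V ∧ V ∩ S = {x}) ∨
      ∃ x : X, (∃ 𝒱, Base (connectedComponent x) 𝒱 ∧ #𝒱 < κ) ∧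
        ∀ 𝒱, Base (connectedComponent x) 𝒱 → ¬ PI 𝒱 := by
  rw [or_iff_not_imp_left]
  intro hX
  obtain ⟨y, ⟨𝒱, h𝒱, hc⟩, hy⟩ := Pool.Agent.Lib.MP_77266e_gtP.final_td
    (Pool.Agent.Lib.MP_77266e_gtP.comp_co hco) h1 h2 h3
    ((Pool.Agent.Lib.MP_77266e_gtP.comp_iso hco).trans_lt hiso)
    (fun h => hX (Pool.Agent.Lib.MP_77266e_gtP.comp_scat hco h))
  obtain ⟨x, rfl⟩ := ConnectedComponents.surjective_coe y
  refine ⟨x, ⟨_, Pool.Agent.Lib.MP_77266e_gtP.comp_nb1 h𝒱, mk_image_le.trans_lt hc⟩, ?_⟩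
  intro 𝒲 h𝒲 hPI
  obtain ⟨f, hf⟩ := Pool.Agent.Lib.MP_77266e_gtP.comp_nb2 h𝒲
  exact hy _ hf (Pool.Agent.Lib.MP_77266e_gtP.pi_image f hPI)

end Pool.Agent.Results.MP_77266e_gt.FewIsolatedPoints
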