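import Mathlib
import Pool.Agent.Lib.MP_77266e_gtM.Lots

/-!
MP_77266e_gt, Q1: c.o. spaces which are monotonically normal are scattered.
The definitions `CO`, `Scattered`, `MonNormal` and `HCH` are in `Pool.Agent.Lib.MP_77266e_gtM.Defs`.
-/

open Set Filter Topology

namespace Pool.Agent.Results.MP_77266e_gt.MonotonicallyNormal

open Pool.Agent.Lib.MP_77266e_gtM

universe u v

/-- Let `X` be a compact Hausdorff c.o. space. If `X` is hereditarily normal and hereditarily collectionwise Hausdorff
and every infinite closed subset of `X` contains a nontrivial convergent sequence, then `X` is scattered. In particular,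
`X` is scattered if it is monotonically normal, and if it is a continuous image of a compact linearly ordered
space. -/
theorem result (X : Type u) [TopologicalSpace X] [CompactSpace X] [T2Space X] (hX : CO X) :
    (CompletelyNormalSpace X → HCH X →
      (∀ F : Set X, IsClosed F → F.Infinite → ∃ (s : ℕ → X) (p : X), (∀ n, s n ∈ F ∧ s n ≠ p) ∧
        Tendsto s atTop (𝓝 p)) → Scattered X) ∧
    (MonNormal X → Scattered X) ∧
    (∀ (Y : Type v) [TopologicalSpace Y] [LinearOrder Y] [OrderTopology Y] [CompactSpace Y] (f : Y → X),
      Continuous f → Function.Surjective f → Scattered X) :=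
  ⟨scattered_of_seq hX, scattered_of_monNormal hX, fun Y _ _ _ _ _ hf hs =>
    scattered_of_monNormal hX ((monNormal_of_order Y).image hf hf.isClosedMap hs)⟩

end Pool.Agent.Results.MP_77266e_gt.MonotonicallyNormal
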