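import Pool.Agent.Lib.MP_77266e_gt.Char

/-!
# c.o. spaces of small character with few isolated points are scattered
-/

namespace Pool.Agent.Results.MP_77266e_gt.SmallCharacter

open Set Topology Cardinal

universe u

/-- A c.o. space in which every point has a neighbourhood base of size less than the
pseudointersection number, and which has no crowded subset containing a relatively discrete set of
cardinality continuum, is scattered. -/
theorem result (X : Type u) [TopologicalSpace X] [CompactSpace X] [T2Space X]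
    (hco : ∀ F : Set X, IsClosed F → ∃ U : Set X, IsClopen U ∧ Nonempty (F ≃ₜ U))
    (hch : ∀ x : X, ∃ 𝒱 : Set (Set X), (∀ V ∈ 𝒱, V ∈ 𝓝 x) ∧ (∀ U ∈ 𝓝 x, ∃ V ∈ 𝒱, V ⊆ U) ∧
      ∀ A : 𝒱 → Set ℕ, (∀ t : Finset 𝒱, (⋂ i ∈ t, A i).Infinite) →
        ∃ B : Set ℕ, B.Infinite ∧ ∀ i, (B \ A i).Finite)
    (hD : ∀ P : Set X, (∀ x ∈ P, x ∈ closure (P \ {x})) → ∀ D ⊆ P,
      (∀ x ∈ D, ∃ V : Set X, IsOpen V ∧ V ∩ D = {x}) → #D ≠ 𝔠) :
    ∀ S : Set X, S.Nonempty → ∃ x ∈ S, ∃ V : Set X, IsOpen V ∧ V ∩ S = {x} :=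
  Pool.Agent.Lib.MP_77266e_gt.scat_of_char hco hch
    (hD _ Pool.Agent.Lib.MP_77266e_gt.kernel_crowded)

end Pool.Agent.Results.MP_77266e_gt.SmallCharacter
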