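import Pool.Agent.Lib.MP_77266e_gt.Weight

/-!
# c.o. spaces of weight less than the covering number of the meagre ideal are scattered
-/

namespace Pool.Agent.Results.MP_77266e_gt.SmallWeight

open Set Topology

universe u

/-- A c.o. space `X` with a basis `B` such that the Cantor space is not the union of a family of
nowhere dense sets indexed by `B` is scattered. -/
theorem result (X : Type u) [TopologicalSpace X] [CompactSpace X] [T2Space X]
    (hco : ∀ F : Set X, IsClosed F → ∃ U : Set X, IsClopen U ∧ Nonempty (F ≃ₜ U))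
    (B : Set (Set X)) (hB : TopologicalSpace.IsTopologicalBasis B)
    (hcov : ∀ N : B → Set (ℕ → Bool), (∀ b, IsNowhereDense (N b)) → ⋃ b, N b ≠ univ) :
    ∀ S : Set X, S.Nonempty → ∃ x ∈ S, ∃ V : Set X, IsOpen V ∧ V ∩ S = {x} :=
  Pool.Agent.Lib.MP_77266e_gt.scat_of_weight hco B hB fun N hN => by
    have h1 := hcov N hN
    rw [Ne, eq_univ_iff_forall, not_forall] at h1
    obtain ⟨z, hz⟩ := h1
    exact ⟨z, fun b hb => hz (mem_iUnion.2 ⟨b, hb⟩)⟩

end Pool.Agent.Results.MP_77266e_gt.SmallWeight
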